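import Pool.Agent.Lib.PosetForcing.CardDefs

set_option autoImplicit false

/-! Sigma-closed topological Ramsey spaces, written inside a structure `(M, mem)`; all
quantifiers range over `M`. -/

open Pool.Agent.Lib.PosetForcing

namespace Pool.Agent.P.MP_fdc1ac_lc.In

universe v

/-- the data of a space -/
structure Data (M : Type v) where
  /-- `ω` -/
  w : M
  /-- the space -/
  R : M
  /-- the approximations -/
  AR : M
  /-- `≤` -/
  le : M
  /-- `≤*` -/
  ls : M
  /-- `≤_fin` -/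
  lf : M
  /-- the map `r` -/
  r : M

variable {M : Type v} (mem : M → M → Prop) (S : Data M)

/-- `l` is reflexive and transitive on `X` -/
def QO (X l : M) : Prop :=
  (∀ x, mem x X → App mem l x x) ∧
    ∀ x y z, mem x X → mem y X → mem z X → App mem l x y → App mem l y z → App mem l x z

/-- `r_n(A) = a` -/
def Ap (n A a : M) : Prop := ∃ p, IsPair mem p n A ∧ App mem S.r p a

/-- `G` is finite -/
def Fin (G : M) : Prop := ∃ n, mem n S.w ∧ LeCard mem G n

/-- `a ⊑ b` -/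
def Init (a b : M) : Prop := ∃ B n m, IsSub mem n m ∧ Ap mem S n B a ∧ Ap mem S m B b

/-- `A ∈ [a, B]` -/
def Nb (a B A : M) : Prop := mem A S.R ∧ App mem S.le A B ∧ ∃ n, Ap mem S n A a

/-- `depth_B(a) = n` and `b = r_n(B)` -/
def Depth (B a n b : M) : Prop :=
  mem a S.AR ∧ Ap mem S n B b ∧ App mem S.lf a b ∧
    ∀ m c, mem m n → Ap mem S m B c → ¬ App mem S.lf a c

/-- `r : ω × R → AR` is onto, A.1 to A.4 hold and `R` is closed in `AR^ω` -/
structure IsTRS : Prop where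
  ne : ∃ A, mem A S.R
  fn : ∃ P, (∀ p, mem p P ↔ ∃ n A, mem n S.w ∧ mem A S.R ∧ IsPair mem p n A) ∧
    IsFun mem S.r P S.AR
  onto : ∀ a, mem a S.AR → ∃ n A, Ap mem S n A a
  le : QO mem S.R S.le
  lf : QO mem S.AR S.lf
  a11 : ∀ e A B a b, (∀ x, ¬ mem x e) → Ap mem S e A a → Ap mem S e B b → a = b
  a12 : ∀ A B, mem A S.R → mem B S.R → A ≠ B →
    ∃ n a b, Ap mem S n A a ∧ Ap mem S n B b ∧ a ≠ b
  a13 : ∀ A B n m a, Ap mem S n A a → Ap mem S m B a →
    n = m ∧ ∀ k b, mem k n → Ap mem S k A b → Ap mem S k B b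
  a21 : ∀ b, mem b S.AR → ∃ G, Fin mem S G ∧ ∀ a, mem a G ↔ mem a S.AR ∧ App mem S.lf a b
  a22 : ∀ A B, mem A S.R → mem B S.R →
    (App mem S.le A B ↔ ∀ n a, Ap mem S n A a → ∃ m b, Ap mem S m B b ∧ App mem S.lf a b)
  a23 : ∀ a b c, Init mem S a b → mem c S.AR → App mem S.lf b c →
    ∃ d, Init mem S d c ∧ App mem S.lf a d ∧ (a ≠ b → d ≠ c)
  a31 : ∀ B a n b A, Depth mem S B a n b → Nb mem S b B A → ∃ C, Nb mem S a A C
  a32 : ∀ B a n b A, Depth mem S B a n b → mem A S.R → App mem S.le A B →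
    (∃ C, Nb mem S a A C) →
    ∃ A', Nb mem S b B A' ∧ (∃ C, Nb mem S a A' C) ∧ ∀ C, Nb mem S a A' C → Nb mem S a A C
  a4 : ∀ B a n b k k' O, Depth mem S B a n b → (∃ C, Ap mem S k C a) → IsSucc mem k' k →
    ∃ A, Nb mem S b B A ∧ ((∀ C c, Nb mem S a A C → Ap mem S k' C c → mem c O) ∨
      ∀ C c, Nb mem S a A C → Ap mem S k' C c → ¬ mem c O)
  closed : ∀ s, IsFun mem s S.w S.AR →
    (∀ N, mem N S.w → ∃ A, mem A S.R ∧ ∀ n a, mem n N → App mem s n a → Ap mem S n A a) →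
    ∃ A, mem A S.R ∧ ∀ n a, App mem s n a → Ap mem S n A a

/-- the separative preorder of `l` on `R` -/
def Sep (l x y : M) : Prop :=
  ∀ z, mem z S.R → App mem l z x → ∃ u, mem u S.R ∧ App mem l u z ∧ App mem l u y

/-- `≤*` is a sigma-closed coarsening of `≤` with the same separative preorder -/
structure IsSigma : Prop where
  qo : QO mem S.R S.ls
  coarse : ∀ A B, mem A S.R → mem B S.R → App mem S.le A B → App mem S.ls A B
  closed : ∀ X, IsFun mem X S.w S.R →
    (∀ n n' A B, IsSucc mem n' n → App mem X n A → App mem X n' B → App mem S.ls B A) →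
    ∃ Y, mem Y S.R ∧ ∀ n A, App mem X n A → App mem S.ls Y A
  sep : ∀ A B, mem A S.R → mem B S.R → (Sep mem S S.le A B ↔ Sep mem S S.ls A B)

/-- `F` has a pseudointersection -/
def Pseudo (F : M) : Prop := ∃ Y, mem Y S.R ∧ ∀ X, mem X F → App mem S.ls Y X

/-- `F ⊆ R` and every finite subfamily has a pseudointersection -/
def SFIP (F : M) : Prop :=
  IsSub mem F S.R ∧ ∀ G, IsSub mem G F → Fin mem S G → Pseudo mem S G

/-- `T ⊆ R` is linearly ordered by `≤*` and has no pseudointersection -/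
def Tower (T : M) : Prop :=
  IsSub mem T S.R ∧ (∀ X Y, mem X T → mem Y T → App mem S.ls X Y ∨ App mem S.ls Y X) ∧
    (∀ X Y, mem X T → mem Y T → App mem S.ls X Y → App mem S.ls Y X → X = Y) ∧ ¬ Pseudo mem S T

end Pool.Agent.P.MP_fdc1ac_lc.In
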