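import Pool.Agent.P.MP_0d6be8_lc.NKW.Omega
import Pool.Agent.P.MP_93aff1_lc.MA

set_option autoImplicit false
set_option synthInstance.maxSize 40000

/-! A model of Martin's axiom and the failure of the continuum hypothesis whose natural numbers
are standard. -/

open Pool.Agent.Lib.PosetForcing Pool.Agent.P.MP_5f3b23_lc.Zf
open Pool.Agent.P.MP_0d6be8_lc.NKW (exists_omega_model zfc_map)
open Pool.Agent.P.MP_93aff1_lc

namespace Pool.Agent.P.MP_fdc1ac_lc.W

universe v

instance ud_isOmega1 (i j : ℕ) : UD.{v} fun _ mem v => IsOmega1 mem (v i) (v j) := by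
  unfold IsOmega1; infer_instance

instance ud_ma (i j : ℕ) : UD.{v} fun _ mem v => MA mem (v i) (v j) := by
  unfold MA IsPoset IsCCC IsDense IsFilter Compat Ne; infer_instance

section maps
variable {S : Type v} {N : Type} (m : S → S → Prop) (e : N ≃ S)

theorem app_map (f x y : N) :
    App m (e f) (e x) (e y) ↔ App (fun a b => m (e a) (e b)) f x y := by
  simp only [App, IsPair, IsUPair, e.surjective.forall, e.surjective.exists, e.apply_eq_iff_eq]

theorem isPair_map (f x y : N) :
    IsPair m (e f) (e x) (e y) ↔ IsPair (fun a b => m (e a) (e b)) f x y := by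
  simp only [IsPair, IsUPair, e.surjective.forall, e.apply_eq_iff_eq]

theorem leCard_map (x y : N) :
    LeCard m (e x) (e y) ↔ LeCard (fun a b => m (e a) (e b)) x y := by
  simp only [LeCard, IsInj, IsFun, IsFunOn, e.surjective.forall, e.surjective.exists,
    e.apply_eq_iff_eq, app_map, isPair_map]

theorem isOmega_map (x : N) : IsOmega m (e x) ↔ IsOmega (fun a b => m (e a) (e b)) x := by
  simp only [IsOmega, IsInductive, IsSucc, e.surjective.forall, e.surjective.exists,
    e.apply_eq_iff_eq]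

theorem isOmega1_map (x y : N) :
    IsOmega1 m (e x) (e y) ↔ IsOmega1 (fun a b => m (e a) (e b)) x y := by
  simp only [IsOmega1, IsSub, e.surjective.forall, leCard_map]

theorem ma_map (x y : N) : MA m (e x) (e y) ↔ MA (fun a b => m (e a) (e b)) x y := by
  simp only [MA, IsPoset, IsCCC, IsDense, IsFilter, Compat, IsSub, Ne, e.surjective.forall,
    e.surjective.exists, e.apply_eq_iff_eq, app_map, leCard_map]

end maps

theorem exists_model : ∃ (N : Type) (m : N → N → Prop) (w c k : N), IsZFC m ∧ IsOmega m w ∧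
    IsOmega1 m k w ∧ MA m w c ∧ ¬ LeCard m c k ∧ ∀ T : N → Prop, (∀ e, (∀ x, ¬ m x e) → T e) →
      (∀ x y, IsSucc m y x → T x → T y) → ∀ x, m x w → T x := by
  obtain ⟨U, S, m, v, N, e, h1, h2, h3⟩ := exists_omega_model
    fun i => Nat.casesOn i wN fun i => Nat.casesOn i cN fun _ => w1N
  have k1 := h2 (fun _ mem v => IsOmega mem (v 0)) (isOmega_omega U)
  have k2 := h2 (fun _ mem v => IsOmega1 mem (v 2) (v 0)) (isOmega1_w1N U)
  have k3 := h2 (fun _ mem v => MA mem (v 0) (v 1)) (ma_holds U)
  have k4 := h2 (fun _ mem v => ¬ LeCard mem (v 1) (v 2)) (not_ch U)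
  obtain ⟨w, hw⟩ := e.surjective (v 0)
  obtain ⟨c, hc⟩ := e.surjective (v 1)
  obtain ⟨k, hk⟩ := e.surjective (v 2)
  simp only [← hw, ← hc, ← hk] at k1 k2 k3 k4
  refine ⟨N, _, w, c, k, zfc_map m e h1, (isOmega_map m e w).1 k1, (isOmega1_map m e k w).1 k2,
    (ma_map m e w c).1 k3, fun h => k4 ((leCard_map m e c k).2 h), fun T t0 t1 y hy => ?_⟩
  have := h3 (fun s => T (e.symm s)) (fun s hs => t0 _ fun z => hs _ ∘ fun q => by simpa using q)
    (fun a b hs => t1 _ _ fun z => by
      simpa only [e.apply_symm_apply, e.eq_symm_apply] using hs (e z)) _ k1 _ hy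
  simpa using this

end Pool.Agent.P.MP_fdc1ac_lc.W
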