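import Pool.Agent.P.MP_fdc1ac_lc.Basic
import Pool.Agent.P.MP_0d6be8_lc.NKW.TW

set_option autoImplicit false
set_option linter.unusedSectionVars false
set_option synthInstance.maxSize 4000

/-! Decorations and the elements of the space, inside a model with standard numbers. -/

noncomputable section

open Pool.Agent.P.MP_af1204_lc.Inn hiding range image univ Iio Iic
open Pool.Agent.P.MP_0d6be8_lc.NKW Filter

namespace Pool.Agent.P.MP_fdc1ac_lc.W

/-- decorations: a literal or a total assignment -/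
abbrev D := (ℕ × Bool) ⊕ List Bool

def ext (a b : D) : Prop := a = b ∨ ∃ s l, a = .inr s ∧ b = .inl l ∧ s.getD l.1 false = l.2

def Valid (k : ℕ) (d : D) : Prop :=
  (∃ l, d = .inl l ∧ l.1 ≤ k) ∨ ∃ s, d = .inr s ∧ s.length ≤ k + 1

def Tot (d : D) : Prop := ∃ s, d = .inr s

def dflt : D := .inr []

def total (d : D) : D :=
  Sum.elim (fun l => .inr ((List.range (l.1 + 1)).map fun _ => l.2)) (fun s => .inr s) d

theorem ext_refl (d : D) : ext d d := Or.inl rfl

theorem ext_trans {a b c : D} (h1 : ext a b) (h2 : ext b c) : ext a c := by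
  rcases h1 with rfl | ⟨s, l, rfl, rfl, h⟩
  · exact h2
  · rcases h2 with rfl | ⟨_, _, e, -⟩
    · exact Or.inr ⟨s, l, rfl, rfl, h⟩
    · cases e

theorem ext_tot {a b : D} (h : ext a b) (hb : Tot b) : a = b := by
  obtain ⟨s, rfl⟩ := hb
  rcases h with h | ⟨_, _, -, e, -⟩
  · exact h
  · cases e

theorem ext_lit {a b : D} (h : ext a b) (ha : ¬ Tot a) : a = b :=
  h.resolve_right fun ⟨s, _, e, _⟩ => ha ⟨s, e⟩

theorem total_tot (d : D) : Tot (total d) := by cases d <;> exact ⟨_, rfl⟩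

theorem getD_map {X : Type} {n i : ℕ} (f : ℕ → X) (d : X) (h : i < n) :
    ((List.range n).map f).getD i d = f i := by
  simp [List.getD_eq_getElem?_getD, List.getElem?_range h]

theorem total_ext (d : D) : ext (total d) d := by
  rcases d with l | s
  · exact Or.inr ⟨_, l, rfl, rfl, getD_map _ _ (Nat.lt_succ_self _)⟩
  · exact ext_refl _

theorem valid_inl {k : ℕ} {l : ℕ × Bool} : Valid k (.inl l) ↔ l.1 ≤ k := by simp [Valid]

theorem valid_inr {k : ℕ} {s : List Bool} : Valid k (.inr s) ↔ s.length ≤ k + 1 := by simp [Valid]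

theorem total_valid {k : ℕ} {d : D} (h : Valid k d) : Valid k (total d) := by
  rcases d with l | s
  · exact valid_inr.2 (by simpa using valid_inl.1 h)
  · exact h

theorem dflt_valid (k : ℕ) : Valid k dflt := valid_inr.2 (by simp)

theorem dflt_tot : Tot dflt := ⟨_, rfl⟩

theorem valid_mono {k m : ℕ} {d : D} (h : Valid k d) (e : k ≤ m) : Valid m d := by
  rcases d with l | s
  · exact valid_inl.2 ((valid_inl.1 h).trans e)
  · exact valid_inr.2 ((valid_inr.1 h).trans (by omega))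

theorem valid_finite (k : ℕ) : {d : D | Valid k d}.Finite := by
  have h1 : (Sum.inl '' ((Set.Iic k) ×ˢ (Set.univ : Set Bool)) : Set D).Finite :=
    ((Set.finite_Iic k).prod Set.finite_univ).image _
  have h2 : (Sum.inr '' {s : List Bool | s.length ≤ k + 1} : Set D).Finite :=
    (List.finite_length_le _ _).image _
  refine (h1.union h2).subset ?_
  rintro (l | s) h
  · exact Or.inl ⟨l, ⟨valid_inl.1 h, trivial⟩, rfl⟩
  · exact Or.inr ⟨s, valid_inr.1 h, rfl⟩

theorem ext_fun {k : ℕ} (f : ℕ → Bool) {l : ℕ × Bool} (h : l.1 ≤ k) :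
    ext (.inr ((List.range (k + 1)).map f)) (.inl l) ↔ f l.1 = l.2 := by
  rw [← getD_map f false (Nat.lt_succ_of_le h)]
  simp only [ext, reduceCtorEq, false_or, Sum.inr.injEq, Sum.inl.injEq]
  exact ⟨fun ⟨_, _, e, e', k⟩ => e ▸ e' ▸ k, fun k => ⟨_, _, rfl, rfl, k⟩⟩

theorem valid_fun (k : ℕ) (f : ℕ → Bool) : Valid k (.inr ((List.range (k + 1)).map f)) :=
  valid_inr.2 (by simp)

theorem exists_sep {k : ℕ} (hk : 1 ≤ k) {a b : D} (ha : Valid k a) (hb : Valid k b) :
    ∃ t, Valid k t ∧ Tot t ∧ ext t a ∧ (¬ ext a b → ¬ ext t b) := by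
  rcases a with ⟨i, e⟩ | s
  · have ha := valid_inl.1 ha
    have key : ∀ g : Bool, ext (.inr ((List.range (k + 1)).map fun x => if x = i then e else g))
        (.inl (i, e)) := fun g => (ext_fun _ ha).2 (by simp)
    rcases b with ⟨j, f⟩ | s
    · refine ⟨_, valid_fun _ _, ⟨_, rfl⟩, key (!f), fun h h' => ?_⟩
      rw [ext_fun _ (valid_inl.1 hb)] at h'
      by_cases hij : j = i
      · subst hij
        simp only [if_true] at h'
        exact h (Or.inl (by rw [h']))
      · simp [hij] at h'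
    · obtain ⟨j, hj, hji⟩ : ∃ j, j ≤ k ∧ j ≠ i := by
        by_cases h : i = 0
        · exact ⟨1, hk, by omega⟩
        · exact ⟨0, by omega, by omega⟩
      refine ⟨_, valid_fun _ _, ⟨_, rfl⟩, key (!s.getD j false), fun _ h' => ?_⟩
      have := congrArg (fun s => s.getD j false) (Sum.inr.inj (ext_tot h' ⟨_, rfl⟩))
      simp only [getD_map _ _ (Nat.lt_succ_of_le hj), if_neg hji] at this
      simp at this
  · exact ⟨.inr s, ha, ⟨_, rfl⟩, ext_refl _, id⟩

theorem map_range_eq {X : Type} {n m : ℕ} {f g : ℕ → X} :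
    (List.range n).map f = (List.range m).map g ↔ n = m ∧ ∀ i < n, f i = g i := by
  constructor
  · intro h
    obtain rfl : n = m := by simpa using congrArg List.length h
    exact ⟨rfl, fun i hi => List.map_inj_left.1 h i (List.mem_range.2 hi)⟩
  · rintro ⟨rfl, h⟩
    exact List.map_inj_left.2 fun i hi => h i (List.mem_range.1 hi)

theorem finite_lists {X : Type} {s : Set X} (h : s.Finite) (N : ℕ) :
    {l : List X | l.length ≤ N ∧ ∀ x ∈ l, x ∈ s}.Finite := by
  have := h.to_subtype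
  refine ((List.finite_length_le s N).image (List.map Subtype.val)).subset fun l hl =>
    ⟨l.attachWith _ hl.2, by simpa using hl.1, by simp⟩

variable [Md] [Std]

section dd
variable {Γ : Type} [MC Γ]

instance (a b : Γ → D) [DD a] [DD b] : DP fun g => ext (a g) (b g) := by
  unfold ext; infer_instance

instance (k : Γ → ℕ) (a : Γ → D) [DD k] [DD a] : DP fun g => Valid (k g) (a g) := by
  unfold Valid; infer_instance

instance (a : Γ → D) [DD a] : DP fun g => Tot (a g) := by unfold Tot; infer_instance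

instance (a : Γ → D) [DD a] : DD fun g => total (a g) := by unfold total; infer_instance

instance dp_range (L : Γ → Fn ℕ ℕ) (m : Γ → ℕ) [DD L] [DD m] :
    DP fun g => m g ∈ Set.range (L g) :=
  (inferInstance : DP fun g => ∃ i, L g i = m g)

instance dd_cat (x φ : Γ → Fn ℕ ℕ) (n i : Γ → ℕ) [DD x] [DD φ] [DD n] [DD i] :
    DD fun g => cat (x g) (n g) (φ g) (i g) := by unfold cat; infer_instance

end dd

/-- increasing choice -/
theorem extract (P : ℕ → ℕ → Prop) [DP2 P] (h : ∀ n, ∃ᶠ k in atTop, P n k) :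
    ∃ φ : Fn ℕ ℕ, StrictMono φ ∧ ∀ n, P n (φ n) := by
  obtain ⟨x0, h0⟩ := (h 0).exists
  obtain ⟨f, -, hf⟩ := exists_seq (fun _ x y => x < y) P x0 h0 fun n x _ =>
    ((h (n + 1)).and_eventually (eventually_gt_atTop x)).exists
  exact ⟨f, strictMono_nat_of_lt_succ fun n => (hf n).2, fun n => (hf n).1⟩

theorem pigeon (P : ℕ → Prop) [DP P] :
    ∃ φ : Fn ℕ ℕ, StrictMono φ ∧ ((∀ n, P (φ n)) ∨ ∀ n, ¬ P (φ n)) := by
  by_cases h : ∃ᶠ n in atTop, P n
  · obtain ⟨φ, h1, h2⟩ := extract (fun _ k => P k) fun _ => h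
    exact ⟨φ, h1, Or.inl h2⟩
  · obtain ⟨φ, h1, h2⟩ := extract (fun _ k => ¬ P k) fun _ => (not_frequently.1 h).frequently
    exact ⟨φ, h1, Or.inr h2⟩

theorem exists_enum (c : ℕ) (Y : ℕ → Prop) [DP Y] (hY : {m | Y m}.Infinite) :
    ∃ φ : Fn ℕ ℕ, StrictMono φ ∧ c ≤ φ 0 ∧ ∀ i, Y (φ i) := by
  obtain ⟨φ, h1, h2⟩ := extract (fun _ k => Y k ∧ c ≤ k) fun _ =>
    (Nat.frequently_atTop_iff_infinite.2 hY).and_eventually (eventually_ge_atTop c)
  exact ⟨φ, h1, (h2 0).2, fun i => (h2 i).1⟩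

/-- the elements of the space -/
@[ext] structure E where
  /-- the levels -/
  L : Fn ℕ ℕ
  /-- the decorations -/
  q : Fn ℕ D
  mono : StrictMono L
  valid : ∀ k, Valid k (q k)
  junk : ∀ k < L 0, q k = dflt
  up : ∀ k, L 0 ≤ k → Tot (q k) → Tot (q (k + 1))

instance : MT E :=
  MT.ofInj (fun A : E => (A.L, A.q)) (fun _ _ h => E.ext (congrArg Prod.fst h) (congrArg Prod.snd h))
    (k := (inferInstance : DP fun p : Fn ℕ ℕ × Fn ℕ D => StrictMono p.1 ∧ (∀ k, Valid k (p.2 k)) ∧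
      (∀ k < p.1 0, p.2 k = dflt) ∧ ∀ k, p.1 0 ≤ k → Tot (p.2 k) → Tot (p.2 (k + 1))).congr
      fun p => ⟨fun ⟨A, e⟩ => e ▸ ⟨A.mono, A.valid, A.junk, A.up⟩,
        fun h => ⟨⟨p.1, p.2, h.1, h.2.1, h.2.2.1, h.2.2.2⟩, rfl⟩⟩)

section dd
variable {Γ : Type} [MC Γ]

theorem dd_E (A : Γ → E) [h : DD A] : DD fun g => ((A g).L, (A g).q) := h.of_enc fun _ => rfl

instance (A : Γ → E) [DD A] : DD fun g => (A g).L :=
  have := dd_E A
  dd_fst fun g => ((A g).L, (A g).q)

instance (A : Γ → E) [DD A] : DD fun g => (A g).q :=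
  have := dd_E A
  dd_snd fun g => ((A g).L, (A g).q)

theorem dd_mk (A : Γ → E) [DD fun g => (A g).L] [DD fun g => (A g).q] : DD A :=
  (inferInstance : DD fun g => ((A g).L, (A g).q)).of_enc fun _ => rfl

end dd

end Pool.Agent.P.MP_fdc1ac_lc.W
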