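import Pool.Agent.P.MP_fdc1ac_lc.Md.T2

set_option autoImplicit false
set_option linter.unusedSectionVars false
set_option synthInstance.maxSize 4000

/-! The coarsening, pseudointersections and towers inside the model. -/

noncomputable section

open Pool.Agent.P.MP_af1204_lc.Inn hiding range image univ Iio Iic
open Pool.Agent.P.MP_0d6be8_lc.NKW Filter
open Set (range)

namespace Pool.Agent.P.MP_fdc1ac_lc.W

variable [Md] [Std]

theorem leStar_refl (A : E) : leStar A A := ⟨by simp, Eventually.of_forall fun _ => ext_refl _⟩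

theorem leStar_trans (A B C : E) (h1 : leStar A B) (h2 : leStar B C) : leStar A C :=
  ⟨diff_finite_trans h1.1 h2.1, by
    filter_upwards [h1.2, h2.2] with k a b using ext_trans a b⟩

theorem range_inf (A : E) : (range A.L).Infinite :=
  Set.infinite_range_of_injective A.mono.injective

theorem leStar_eq : leStar = sepLe le := by
  funext A B
  apply propext
  constructor
  · rintro ⟨h2, h1⟩ Z hZ
    obtain ⟨N, hN⟩ := eventually_atTop.1 h1
    have hinf : {m | m ∈ range Z.L ∧ m ∈ range B.L}.Infinite := by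
      refine ((range_inf Z).sdiff h2).mono ?_
      rintro y ⟨hy, hy'⟩
      refine ⟨hy, ?_⟩
      by_contra hc
      exact hy' ⟨hZ.1 hy, hc⟩
    obtain ⟨φ, hφ, h0, hs⟩ := exists_enum (N + Z.L 0) _ hinf
    refine ⟨restrict Z φ hφ (by omega), restrict_le (Set.range_subset_iff.2 fun i => (hs i).1),
      Set.range_subset_iff.2 fun i => (hs i).2, fun k hk => ?_⟩
    have hk : φ 0 ≤ k := hk
    rw [restrict_q hk]
    exact ext_trans (hZ.2 k (by omega)) (hN k (by omega))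
  · intro h
    constructor
    · by_contra hn
      obtain ⟨φ, hφ, h0, hs⟩ := exists_enum (A.L 0) (fun m => m ∈ range A.L ∧ ¬ m ∈ range B.L) hn
      have k := restrict_le (hφ := hφ) (h := h0) (Set.range_subset_iff.2 fun i => (hs i).1)
      obtain ⟨W, hW, hW'⟩ := h _ k
      obtain ⟨i, hi⟩ := hW.1 ⟨0, rfl⟩
      exact (hs i).2 (hi ▸ hW'.1 ⟨0, rfl⟩)
    · obtain ⟨t, h0⟩ := chs (R := fun k t => Valid k t ∧ Tot t ∧ ext t (A.q k) ∧
          (1 ≤ k → ¬ ext (A.q k) (B.q k) → ¬ ext t (B.q k))) fun k => by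
        by_cases hk : 1 ≤ k
        · obtain ⟨t, a, b, c, d⟩ := exists_sep hk (A.valid k) (B.valid k)
          exact ⟨t, a, b, c, fun _ => d⟩
        · exact ⟨total (A.q k), total_valid (A.valid k), total_tot _, total_ext _,
            fun h => (hk h).elim⟩
      have ht := fun k => (h0 k).2.1
      obtain ⟨W, hW, hW'⟩ := h (mkTot A.L A.mono t (fun k => (h0 k).1) ht)
        ⟨subset_rfl, fun k hk => by rw [mkTot_q (φ := A.L) hk]; exact (h0 k).2.2.1⟩
      filter_upwards [eventually_ge_atTop 1, eventually_ge_atTop (W.L 0)] with k h1 h2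
      by_contra hc
      apply (h0 k).2.2.2 h1 hc
      have h3 := hW.2 k h2
      rw [mkTot_q (φ := A.L) ((L0_le hW.1).trans h2)] at h3
      rw [← ext_tot h3 (ht k)]
      exact hW'.2 k h2

theorem lit_or_tot (A : E) : (∀ᶠ k in atTop, Tot (A.q k)) ∨ ∀ᶠ k in atTop, ¬ Tot (A.q k) := by
  by_cases h : ∃ k, A.L 0 ≤ k ∧ Tot (A.q k)
  · obtain ⟨k, hk, hk'⟩ := h
    left
    refine eventually_atTop.2 ⟨k, fun l hl => ?_⟩
    induction hl with
    | refl => exact hk'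
    | step hl ih => exact A.up _ (hk.trans hl) ih
  · right
    exact eventually_atTop.2 ⟨A.L 0, fun l hl hc => h ⟨l, hl, hc⟩⟩

theorem exists_q_chain (T : Set E) (hT : ∀ X ∈ T, ∀ Y ∈ T, leStar X Y ∨ leStar Y X) :
    ∃ t : Fn ℕ D, (∀ k, Valid k (t k)) ∧ ∀ X ∈ T, ∀ᶠ k in atTop, ext (t k) (X.q k) := by
  by_cases h : ∃ X ∈ T, ∀ᶠ k in atTop, Tot (X.q k)
  · obtain ⟨X, hX, hc⟩ := h
    refine ⟨X.q, X.valid, fun Y hY => ?_⟩
    rcases hT X hX Y hY with h | h
    · exact h.2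
    · filter_upwards [h.2, hc] with k a b
      rw [ext_tot a b]; exact ext_refl _
  · rcases T.eq_empty_or_nonempty with rfl | ⟨X, hX⟩
    · exact ⟨Fn.const ℕ dflt, dflt_valid, by simp⟩
    · refine ⟨X.q, X.valid, fun Y hY => ?_⟩
      rcases hT X hX Y hY with h' | h'
      · exact h'.2
      · have := (lit_or_tot Y).resolve_left fun hc => h ⟨Y, hY, hc⟩
        filter_upwards [h'.2, this] with k a b
        rw [ext_lit a b]; exact ext_refl _

theorem exists_lower (T : Set E) (Y : ℕ → Prop) [DP Y] (hY : {m | Y m}.Infinite)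
    (h1 : ∀ X ∈ T, ({m | Y m} \ range X.L).Finite) (t : Fn ℕ D) (hv : ∀ k, Valid k (t k))
    (h2 : ∀ X ∈ T, ∀ᶠ k in atTop, ext (t k) (X.q k)) : HasPseudo leStar T := by
  obtain ⟨φ, hφ, -, hs⟩ := exists_enum 0 Y hY
  refine ⟨mkTot φ hφ (lm fun k => total (t k)) (fun k => total_valid (hv k)) fun k => total_tot _,
    fun X hX => ⟨(h1 X hX).subset
      (Set.sdiff_subset_sdiff_left (Set.range_subset_iff.2 hs)), ?_⟩⟩
  filter_upwards [h2 X hX, eventually_ge_atTop (φ 0)] with k a b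
  exact ext_trans (Or.inl (mkTot_q b)) (ext_trans (total_ext _) a)

theorem freq_of_lower {ι : Type} {s : Set ι} (hs : s.Finite) (A : ι → E) (Y : E)
    (h : ∀ i ∈ s, leStar Y (A i)) : ∃ᶠ k in atTop, ∀ i ∈ s, k ∈ range (A i).L := by
  rw [Nat.frequently_atTop_iff_infinite]
  refine ((range_inf Y).sdiff (hs.biUnion fun i hi => (h i hi).1)).mono ?_
  rintro x ⟨hx, hx'⟩ i hi
  by_contra hc
  exact hx' (Set.mem_biUnion hi ⟨hx, hc⟩)

theorem pseudo_of_seq (A Y : Fn ℕ E) (h : ∀ n, ∀ i ≤ n, leStar (Y n) (A i)) :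
    HasPseudo leStar (range A) := by
  classical
  obtain ⟨φ, hφ, hφ'⟩ := extract (fun n k => ∀ i ≤ n, k ∈ range (A i).L) fun n =>
    freq_of_lower (Set.finite_Iic n) A (Y n) (h n)
  obtain ⟨t, ht⟩ := chs (R := fun k t => Valid k t ∧ ∀ i ≤ k,
      (∀ j ≤ i, ext ((Y i).q k) ((A j).q k)) → ext t ((A i).q k)) fun k => by
    let P : ℕ → Prop := fun n => ∀ i ≤ n, ext ((Y n).q k) ((A i).q k)
    exact ⟨(Y (Nat.findGreatest P k)).q k, (Y _).valid k, fun i b hP =>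
      Nat.findGreatest_spec (P := P) b hP i (Nat.le_findGreatest b hP)⟩
  refine exists_lower _ (· ∈ range φ) (Set.infinite_range_of_injective hφ.injective) ?_ t
    (fun k => (ht k).1) ?_
  · rintro _ ⟨i, rfl⟩
    refine ((Set.finite_Iio i).image φ).subset ?_
    rintro _ ⟨⟨n, rfl⟩, hn⟩
    exact ⟨n, not_le.1 fun hc => hn (hφ' n i hc), rfl⟩
  · rintro _ ⟨i, rfl⟩
    have : ∀ᶠ k in atTop, ∀ j ∈ Set.Iic i, ext ((Y i).q k) ((A j).q k) :=
      (eventually_all_finite (Set.finite_Iic i)).2 fun j hj => (h i j hj).2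
    filter_upwards [this, eventually_ge_atTop i] with k a b using (ht k).2 i b a

theorem sigmaClosed (X : Fn ℕ E) (h : ∀ n, leStar (X (n + 1)) (X n)) :
    ∃ Y, ∀ n, leStar Y (X n) := by
  have hle : ∀ n, ∀ i ≤ n, leStar (X n) (X i) := by
    intro n i hi
    induction hi with
    | refl => exact leStar_refl _
    | step _ ih => exact leStar_trans _ _ _ (h _) ih
  obtain ⟨Y, hY⟩ := pseudo_of_seq X X hle
  exact ⟨Y, fun n => hY _ ⟨n, rfl⟩⟩

instance : Nonempty E :=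
  ⟨mkTot Fn.id strictMono_id (Fn.const ℕ dflt) dflt_valid fun _ => dflt_tot⟩

theorem p_lower (F : PS E) (hc : Cnt (· ∈ F))
    (h : ∀ G : Set E, G.Finite → (∀ X ∈ G, X ∈ F) → HasPseudo leStar G) :
    ∃ Y, ∀ X ∈ F, leStar Y X := by
  rcases eq_empty_or_nonempty F with rfl | ⟨X0, h0⟩
  · exact ⟨Classical.arbitrary E, fun _ k => k.elim⟩
  classical
  obtain ⟨e, he⟩ := hc.enum
  let A : Fn ℕ E := lm fun n => if e n ∈ F then e n else X0
  have hA : ∀ n, A n ∈ F := fun n => by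
    simp only [A, lm_apply]
    split_ifs with k
    exacts [k, h0]
  obtain ⟨Y, hY⟩ := chs (R := fun n Y => ∀ i ≤ n, leStar Y (A i)) fun n => by
    obtain ⟨Y, hY⟩ := h (A '' Set.Iic n) ((Set.finite_Iic n).image _) (by
      rintro _ ⟨i, -, rfl⟩; exact hA i)
    exact ⟨Y, fun i hi => hY _ ⟨i, hi, rfl⟩⟩
  obtain ⟨Z, hZ⟩ := pseudo_of_seq A Y hY
  refine ⟨Z, fun X hX => hZ X ?_⟩
  obtain ⟨n, rfl⟩ := he X hX
  exact ⟨n, if_pos hX⟩

theorem exists_split (Y : E) : ∃ Z, leStar Z Y ∧ ¬ leStar Y Z := by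
  have h1 : StrictMono (lm fun j => Y.L (2 * j)) := fun _ _ h => Y.mono (by omega)
  have h2 : Y.L 0 ≤ (lm fun j => Y.L (2 * j)) 0 := le_rfl
  have h3 := restrict_le (hφ := h1) (h := h2) (by rintro _ ⟨j, rfl⟩; exact ⟨_, rfl⟩)
  refine ⟨_, leStar_eq ▸ sepLe_of_le le_refl' le_trans' h3, fun h => ?_⟩
  refine Set.infinite_range_of_injective (f := fun j => Y.L (2 * j + 1))
    (fun a b e => by have := Y.mono.injective e; omega) (h.1.subset ?_)
  rintro _ ⟨j, rfl⟩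
  refine ⟨⟨_, rfl⟩, fun ⟨i, e⟩ => ?_⟩
  have := Y.mono.injective e
  omega

theorem exists_tower : ∃ T : PS E, (∀ X ∈ T, ∀ Y ∈ T, leStar X Y ∨ leStar Y X) ∧
    (∀ X ∈ T, ∀ Y ∈ T, leStar X Y → leStar Y X → X = Y) ∧ ¬ ∃ Y, ∀ X ∈ T, leStar Y X := by
  obtain ⟨T, -, h1, h2⟩ := exists_max (X := E) (fun l => ∀ X ∈ l, ∀ Y ∈ l,
    (leStar X Y ∨ leStar Y X) ∧ (leStar X Y → leStar Y X → X = Y)) (fun _ => False)
    fun l hl X hX => (hl X hX).elim
  have h3 := fun X (hX : X ∈ T) Y (hY : Y ∈ T) =>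
    h1 [X, Y] (by simp [hX, hY]) X (by simp) Y (by simp)
  refine ⟨T, fun X hX Y hY => (h3 X hX Y hY).1, fun X hX Y hY => (h3 X hX Y hY).2,
    fun ⟨Y, hY⟩ => ?_⟩
  obtain ⟨Z, z1, z2⟩ := exists_split Y
  refine z2 (hY Z (h2 Z fun l hl A hA B hB => ?_))
  rcases hl A hA with rfl | a <;> rcases hl B hB with rfl | b
  · exact ⟨Or.inl (leStar_refl _), fun _ _ => rfl⟩
  · exact ⟨Or.inl (leStar_trans _ _ _ z1 (hY _ b)),
      fun _ k => (z2 (leStar_trans _ _ _ (hY _ b) k)).elim⟩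
  · exact ⟨Or.inr (leStar_trans _ _ _ z1 (hY _ a)),
      fun k _ => (z2 (leStar_trans _ _ _ (hY _ a) k)).elim⟩
  · exact h3 A a B b

/-- families indexed by `W` with infinite finite intersections have pseudointersections -/
def PI (W : Type) [MT W] : Prop :=
  ∀ B : Fn W (PS ℕ), (∀ l : List W, ∃ᶠ m in atTop, ∀ a ∈ l, m ∈ B a) →
    ∃ Y : PS ℕ, {m | m ∈ Y}.Infinite ∧ ∀ a, {m | m ∈ Y ∧ m ∉ B a}.Finite

theorem t_lower {W : Type} [MT W] (h : PI W) (e : Fn W E)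
    (hT : ∀ a b, leStar (e a) (e b) ∨ leStar (e b) (e a)) : HasPseudo leStar (range e) := by
  obtain ⟨t, hv, ht⟩ := exists_q_chain (range e) (by
    rintro _ ⟨a, rfl⟩ _ ⟨b, rfl⟩; exact hT a b)
  obtain ⟨Y, h1, h2⟩ := h (lm fun a => sb fun m => m ∈ range (e a).L) fun l => by
    obtain ⟨Z, hZ⟩ : ∃ Z, (∀ a ∈ l, leStar Z (e a)) ∧ (l = [] ∨ ∃ b, Z = e b) := by
      induction l with
      | nil => exact ⟨Classical.arbitrary E, by simp, Or.inl rfl⟩
      | cons a l ih =>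
        obtain ⟨Z, k1, rfl | ⟨b, rfl⟩⟩ := ih
        · exact ⟨e a, by simpa using leStar_refl _, Or.inr ⟨a, rfl⟩⟩
        · rcases hT a b with k | k
          · exact ⟨e a, List.forall_mem_cons.2 ⟨leStar_refl _,
              fun c hc => leStar_trans _ _ _ k (k1 c hc)⟩, Or.inr ⟨a, rfl⟩⟩
          · exact ⟨e b, List.forall_mem_cons.2 ⟨k, k1⟩, Or.inr ⟨b, rfl⟩⟩
    exact freq_of_lower l.finite_toSet e Z hZ.1
  exact exists_lower _ (· ∈ Y) h1 (by rintro _ ⟨a, rfl⟩; exact h2 a) t hv ht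

end Pool.Agent.P.MP_fdc1ac_lc.W
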