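import Pool.Agent.P.MP_fdc1ac_lc.Md.T3

set_option autoImplicit false
set_option linter.unusedSectionVars false
set_option synthInstance.maxSize 4000

/-! A Luzin family inside the model. -/

noncomputable section

open Pool.Agent.P.MP_af1204_lc.Inn hiding range image univ Iio Iic
open Pool.Agent.P.MP_0d6be8_lc.NKW Filter
open Set (range)

namespace Pool.Agent.P.MP_fdc1ac_lc.W

/-- literal sequences `f`, `g` clash at `k` -/
def Clash (f g : ℕ → ℕ × Bool) (k : ℕ) : Prop := (f k).1 = (g k).1 ∧ (f k).2 ≠ (g k).2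

variable [Md] [Std]

/-- sequences of literals -/
abbrev Sq := Fn ℕ (ℕ × Bool)

instance {Γ : Type} [MC Γ] (f f' : Γ → Sq) (k : Γ → ℕ) [DD f] [DD f'] [DD k] :
    DP fun g => Clash (f g) (f' g) (k g) := by
  unfold Clash; infer_instance

variable {W : Type} [MT W]

/-- the inductive step -/
def St (J : W → Prop) (g : W → Sq) (f : Sq) : Prop :=
  (∀ k, (f k).1 ≤ k) ∧ (∀ j, J j → ∀ᶠ k in atTop, (f k).1 ≠ (g j k).1) ∧
    ∀ n, ∃ l : List W, ∀ j, J j → (∀ k, n ≤ k → ¬ Clash f (g j) k) → j ∈ l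

theorem luzin_step (J : W → Prop) [DP J] (hJ : Cnt J) (g : Fn W Sq)
    (hb : ∀ j, J j → ∀ k, (g j k).1 ≤ k)
    (hd : ∀ i j, J i → J j → i ≠ j → ∀ᶠ k in atTop, (g i k).1 ≠ (g j k).1) :
    ∃ f : Sq, St J g f := by
  classical
  obtain ⟨e, he⟩ := hJ
  have hfin : ∀ n, {j | J j ∧ e j < n}.Finite := fun n =>
    Set.Finite.of_finite_image (f := e) ((Set.finite_Iio n).subset (by
      rintro _ ⟨j, hj, rfl⟩; exact hj.2)) fun a ha b hb => he a b ha.1 hb.1
  obtain ⟨m, hm⟩ := chsH (P := J) (R := fun j m => ∀ i, J i → e i < e j →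
      (g j (Nat.pair (e j) m)).1 ≠ (g i (Nat.pair (e j) m)).1) fun j hj => by
    have : ∀ᶠ k in atTop, ∀ i ∈ {i | J i ∧ e i < e j}, (g j k).1 ≠ (g i k).1 :=
      (eventually_all_finite (hfin _)).2 fun i hi => hd j i hj hi.1 (by
        rintro rfl; exact lt_irrefl (e j) hi.2)
    obtain ⟨N, hN⟩ := eventually_atTop.1 this
    exact ⟨N, fun i hi hi' => hN _ (Nat.right_le_pair _ _) i ⟨hi, hi'⟩⟩
  let K : W → ℕ := fun j => Nat.pair (e j) (m j)
  have hKe : ∀ j, e j ≤ K j := fun j => Nat.left_le_pair _ _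
  obtain ⟨f, hf⟩ := chs (R := fun k (y : ℕ × Bool) =>
      (∀ j, J j → Nat.pair (e j) (m j) = k → y.1 = (g j k).1 ∧ y.2 ≠ (g j k).2) ∧
      ((¬ ∃ j, J j ∧ Nat.pair (e j) (m j) = k) →
        y.1 ≤ k ∧ ∀ j, J j → e j < k → y.1 ≠ (g j k).1)) fun k => by
    by_cases h : ∃ j, J j ∧ K j = k
    · obtain ⟨j, hj, rfl⟩ := h
      refine ⟨((g j (K j)).1, !(g j (K j)).2), fun i hi e' => ?_, fun h => (h ⟨j, hj, rfl⟩).elim⟩
      obtain rfl := he _ _ hi hj (Nat.pair_eq_pair.1 e').1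
      simp
    · have hc : ((hfin k).toFinset.image fun j => (g j k).1).card <
          (Finset.range (k + 1)).card := by
        refine Finset.card_image_le.trans_lt ?_
        rw [Finset.card_range]
        refine Nat.lt_succ_of_le ?_
        conv_rhs => rw [← Finset.card_range k]
        exact Finset.card_le_card_of_injOn e (fun j hj => by simp at hj ⊢; exact hj.2)
          fun a ha b hb => he a b (by simp at ha; exact ha.1) (by simp at hb; exact hb.1)
      obtain ⟨v, hv, hv'⟩ := Finset.exists_mem_notMem_of_card_lt_card hc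
      exact ⟨(v, true), fun j hj e' => (h ⟨j, hj, e'⟩).elim, fun _ =>
        ⟨Nat.le_of_lt_succ (Finset.mem_range.1 hv), fun j hj hj' h =>
          hv' (Finset.mem_image.2 ⟨j, by simp [hj, hj'], h.symm⟩)⟩⟩
  refine ⟨f, fun k => ?_, fun j hj => ?_, fun n => ⟨(hfin n).toFinset.toList, fun j hj h => ?_⟩⟩
  · by_cases h : ∃ j, J j ∧ K j = k
    · obtain ⟨j, hj, e'⟩ := h
      rw [((hf k).1 j hj e').1]; exact hb j hj k
    · exact ((hf k).2 h).1
  · filter_upwards [fin_iff.1 ((hfin (e j + 1)).image K), eventually_gt_atTop (e j)] with k hk hk'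
    by_cases h : ∃ j, J j ∧ K j = k
    · obtain ⟨i, hi, rfl⟩ := h
      rw [((hf _).1 i hi rfl).1]
      exact hm i hi j hj (not_le.1 fun hc => hk ⟨i, ⟨hi, by omega⟩, rfl⟩)
    · exact ((hf k).2 h).2 j hj hk'
  · simp only [Finset.mem_toList, Set.Finite.mem_toFinset, Set.mem_ofPred_eq]
    exact ⟨hj, not_le.1 fun hc => h (K j) (hc.trans (hKe j)) ((hf _).1 j hj rfl)⟩

variable [LinearOrder W] [WFL W]

theorem exists_luzin (hc : ∀ i : W, Cnt (· < i)) : ∃ F : Fn W Sq, ∀ i, St (· < i) F (F i) :=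
  have : DP3 fun (t : W) (F : Fn W Sq) (s : Sq) => St (· < t) F s := by
    unfold St; infer_instance
  exists_rec (fun t (F : Fn W Sq) s => St (· < t) F s)
    (fun t f g s e h => ⟨h.1, fun j hj => e j hj ▸ h.2.1 j hj,
      fun n => (h.2.2 n).imp fun l k j hj => e j hj ▸ k j hj⟩)
    fun t f ih => luzin_step _ (hc t) f (fun j hj => (ih j hj).1) fun a b ha hb hab => by
      rcases lt_or_gt_of_ne hab with h | h
      · exact ((ih b hb).2.1 a h).mono fun k hk => hk.symm
      · exact (ih a ha).2.1 b h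

/-- the element given by a sequence of literals -/
def ofLit (f : Sq) (hf : ∀ k, (f k).1 ≤ k) : E where
  L := Fn.id
  q := lm fun k => .inl (f k)
  mono := strictMono_id
  valid := fun k => valid_inl.2 (hf k)
  junk := fun _ hk => absurd hk (Nat.not_lt_zero _)
  up := fun _ _ ⟨_, h⟩ => by cases h

theorem ext_clash {t : D} {f g : ℕ → ℕ × Bool} {k : ℕ} (h1 : ext t (.inl (f k)))
    (h2 : ext t (.inl (g k))) : ¬ Clash f g k := by
  rintro ⟨a, b⟩
  rcases h1 with rfl | ⟨s, l, rfl, e, h1⟩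
  · exact b (by rw [Sum.inl.inj (ext_lit h2 fun ⟨_, h⟩ => by cases h)])
  · rcases h2 with h2 | ⟨s', l', e1, e2, h2⟩
    · cases h2
    · cases e; cases e1; cases e2
      exact b (by rw [← h1, ← h2, a])

theorem p_upper (hc : ∀ i : W, Cnt (· < i)) (hu : ¬ Cnt fun _ : W => True) :
    ∃ X : Fn W E, (∀ G : Set E, G.Finite → G ⊆ range X → HasPseudo leStar G) ∧
      ¬ ∃ Y, ∀ i, leStar Y (X i) := by
  classical
  obtain ⟨F, hF⟩ := exists_luzin hc
  have hb := fun i => (hF i).1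
  have hd : ∀ i j, i ≠ j → ∀ᶠ k in atTop, (F i k).1 ≠ (F j k).1 := fun i j hij => by
    rcases lt_or_gt_of_ne hij with h | h
    · exact ((hF j).2.1 i h).mono fun k hk => hk.symm
    · exact (hF i).2.1 j h
  have : DD fun i => ofLit (F i) (hb i) :=
    @dd_mk _ _ _ _ _ (by unfold ofLit; infer_instance) (by unfold ofLit; infer_instance)
  refine ⟨lm fun i => ofLit (F i) (hb i), fun G hfin hG => ?_, fun ⟨Y, hY⟩ => hu ?_⟩
  · obtain ⟨l, rfl⟩ : ∃ l : List W, G = (fun i => ofLit (F i) (hb i)) '' {i | i ∈ l} := by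
      obtain ⟨s, -, hs, e⟩ := Set.Finite.exists_subset_finite_image_eq
        (f := fun i => ofLit (F i) (hb i)) (s := Set.univ) hfin
        (fun Y hY => by obtain ⟨i, rfl⟩ := hG hY; exact ⟨i, trivial, rfl⟩)
      exact ⟨hs.toFinset.toList, by rw [← e]; congr 1; ext i; simp⟩
    refine exists_lower _ (fun _ => True) Set.infinite_univ (fun Y hY => ?_)
      (lm fun k => .inr ((List.range (k + 1)).map fun x =>
        decide (∃ j, j ∈ l ∧ (F j k).1 = x ∧ (F j k).2 = true))) (fun k => valid_fun _ _)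
      fun Y hY => ?_
    · obtain ⟨i, -, rfl⟩ := hY
      exact Set.finite_empty.subset fun m hm => hm.2 ⟨m, rfl⟩
    · obtain ⟨i, hi, rfl⟩ := hY
      have : ∀ᶠ k in atTop, ∀ j ∈ {j | j ∈ l}, j ≠ i → (F j k).1 ≠ (F i k).1 :=
        (eventually_all_finite l.finite_toSet).2 fun j _ => by
          by_cases h : j = i
          · exact Eventually.of_forall fun _ h' => (h' h).elim
          · exact (hd j i h).mono fun _ h' _ => h'
      filter_upwards [this] with k hk
      refine (ext_fun _ (hb i k)).2 ?_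
      cases hb' : (F i k).2
      · rw [decide_eq_false_iff_not]
        rintro ⟨j, hj1, e, hj2⟩
        by_cases hji : j = i
        · subst hji; rw [hb'] at hj2; exact absurd hj2 (by simp)
        · exact hk j hj1 hji e
      · exact decide_eq_true ⟨i, hi, rfl, hb'⟩
  · obtain ⟨c, h⟩ := chs (R := fun (i : W) (c : ℕ × ℕ) =>
        (∀ k, c.1 ≤ k → ext (Y.q k) (.inl (F i k))) ∧ ∃ l : List W, l.Nodup ∧ l.length = c.2 ∧
          ∀ j, j ∈ l ↔ j < i ∧ ∀ k, c.1 ≤ k → ext (Y.q k) (.inl (F j k))) fun i => by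
      obtain ⟨n, hn⟩ := eventually_atTop.1 (hY i).2
      obtain ⟨l, hl⟩ := (hF i).2.2 n
      have hf : {j | j < i ∧ ∀ k, n ≤ k → ext (Y.q k) (.inl (F j k))}.Finite :=
        l.finite_toSet.subset fun j hj => hl j hj.1 fun k hk => ext_clash (hn k hk) (hj.2 k hk)
      exact ⟨(n, _), hn, hf.toFinset.toList, Finset.nodup_toList _, rfl, by simp⟩
    have key : ∀ a b, a < b → c a ≠ c b := fun a b hab e => by
      obtain ⟨h1, l, l1, l2, l3⟩ := h a
      obtain ⟨-, l', -, l5, l6⟩ := h b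
      have := (List.subperm_of_subset (List.nodup_cons.2 ⟨fun k => lt_irrefl a ((l3 a).1 k).1, l1⟩)
        (List.cons_subset.2 ⟨(l6 a).2 ⟨hab, e ▸ h1⟩, fun j hj =>
          (l6 j).2 ⟨((l3 j).1 hj).1.trans hab, e ▸ ((l3 j).1 hj).2⟩⟩)).length_le
      rw [List.length_cons, l2, l5, e] at this
      omega
    refine ⟨lm fun i => Nat.pair (c i).1 (c i).2, fun a b _ _ e => ?_⟩
    have e' : c a = c b := Prod.ext (Nat.pair_eq_pair.1 e).1 (Nat.pair_eq_pair.1 e).2
    by_contra hab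
    rcases lt_or_gt_of_ne hab with k | k
    exacts [key a b k e', key b a k e'.symm]

end Pool.Agent.P.MP_fdc1ac_lc.W
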