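import Pool.Agent.P.MP_fdc1ac_lc.Md.T4
import Pool.Agent.P.MP_93aff1_lc.Defs

set_option autoImplicit false
set_option linter.unusedSectionVars false
set_option synthInstance.maxSize 4000

/-! Codes of typed objects, and Martin's axiom in typed form. -/

noncomputable section

open Pool.Agent.Lib.PosetForcing (App IsFun IsFunOn LeCard IsOmega1)
open Pool.Agent.P.MP_5f3b23_lc.Zf (mm om op app_iff isPair_iff op_inj mem_suc)
open Pool.Agent.P.MP_af1204_lc.Inn Pool.Agent.P.MP_0d6be8_lc.NKW Filter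
open Pool.Agent.P.MP_93aff1_lc (MA)

namespace Pool.Agent.P.MP_fdc1ac_lc.W

variable [Md] [Std]

section code
variable {X Y : Type} [MT X] [MT Y]

theorem app_enc {f : Fn X Y} {x y : MM} : App mm (enc f) x y ↔ ∃ t, enc t = x ∧ enc (f t) = y :=
  app_iff.trans (Fn.mem_code.trans (exists_congr fun _ =>
    ⟨op_inj, fun h => by rw [h.1, h.2]⟩))

theorem app_enc' {f : Fn X Y} {x : X} {y : MM} : App mm (enc f) (enc x) y ↔ y = enc (f x) :=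
  app_enc.trans ⟨fun ⟨_, h, e⟩ => enc_inj.1 h ▸ e.symm, fun h => ⟨x, rfl, h.symm⟩⟩

theorem isFun_enc (f : Fn X Y) : IsFun mm (enc f) (car X) (car Y) := by
  refine ⟨fun p hp => ?_, fun x hx => ?_, fun x y y' h1 h2 => ?_⟩
  · obtain ⟨x, rfl⟩ := Fn.mem_code.1 hp
    exact ⟨_, _, isPair_iff.2 rfl, enc_mem x, enc_mem _⟩
  · obtain ⟨t, rfl⟩ := mem_car.1 hx
    exact ⟨_, app_enc'.2 rfl⟩
  · obtain ⟨t, rfl, rfl⟩ := app_enc.1 h1
    exact (app_enc'.1 h2).symm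

instance dd_op {Γ : Type} [MC Γ] (a b : Γ → MM) [ha : DD a] [hb : DD b] :
    DD fun g => op (a g) (b g) := by
  obtain ⟨A, _, h1⟩ := ha.out
  obtain ⟨B, _, h2⟩ := hb.out
  exact DD.of (fun x => op (A x) (B x)) fun g => by rw [h1, h2]; rfl

instance dp_App {Γ : Type} [MC Γ] (f a b : Γ → MM) [DD f] [DD a] [DD b] :
    DP fun g => App mm (f g) (a g) (b g) :=
  (inferInstance : DP fun g => op (a g) (b g) ∈ f g).congr fun _ => app_iff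

theorem isFun_iff {f : MM} (h : IsFun mm f (car X) (car Y)) : ∃ t : Fn X Y, enc t = f := by
  obtain ⟨t, ht⟩ := chs (R := fun (x : X) (y : Y) => App mm f (enc x) (enc y)) fun x => by
    obtain ⟨y, hy⟩ := h.2.1 _ (enc_mem x)
    obtain ⟨x', y', e, -, k⟩ := h.1 _ (app_iff.1 hy)
    obtain ⟨t, rfl⟩ := mem_car.1 k
    obtain ⟨-, rfl⟩ := op_inj (isPair_iff.1 e)
    exact ⟨t, hy⟩
  refine ⟨t, zext fun p => Fn.mem_code.trans
    ⟨fun ⟨x, e⟩ => e ▸ app_iff.1 (ht x), fun hp => ?_⟩⟩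
  obtain ⟨x, y, e, k, -⟩ := h.1 _ hp
  obtain ⟨x, rfl⟩ := mem_car.1 k
  obtain rfl := isPair_iff.1 e
  exact ⟨x, by rw [h.2.2 _ _ _ (ht x) (app_iff.2 hp)]⟩

theorem sub_iff {a : MM} (h : ∀ y, y ∈ a → y ∈ car X) : ∃ t : PS X, enc t = a :=
  (ps_car a).1 (MP_5f3b23_lc.Zf.mem_pow.2 h)

theorem mem_enc {B : PS X} {y : MM} : y ∈ enc B ↔ ∃ x, x ∈ B ∧ enc x = y := PS.mem_code

theorem enc_mem_enc {B : PS X} {x : X} : enc x ∈ enc B ↔ x ∈ B := PS.enc_mem_code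

theorem enc_sub (B : PS X) (y : MM) (h : y ∈ enc B) : y ∈ car X :=
  let ⟨x, _, e⟩ := mem_enc.1 h; e ▸ enc_mem x

theorem car_ps (T : PS X) : car T = enc T :=
  zext fun _ => mem_car.trans (Iff.trans ⟨fun ⟨t, e⟩ => ⟨t.1, t.2, e⟩,
    fun ⟨t, h, e⟩ => ⟨⟨t, h⟩, e⟩⟩ mem_enc.symm)

theorem car_fin (n : ℕ) : car (Fin n) = num n :=
  zext fun _ => mem_car.trans (Iff.trans ⟨fun ⟨t, e⟩ => ⟨t.1, t.2, e⟩,
    fun ⟨t, h, e⟩ => ⟨⟨t, h⟩, e⟩⟩ mem_num.symm)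

theorem leCard_iff : LeCard mm (car X) (car Y) ↔ ∃ f : Fn X Y, Function.Injective f := by
  refine ⟨fun ⟨j, h1, h2⟩ => ?_, fun ⟨f, hf⟩ => ⟨enc f, isFun_enc f, fun x x' y k k' => ?_⟩⟩
  · obtain ⟨e, rfl⟩ := isFun_iff h1
    exact ⟨e, fun m n k => enc_inj.1 (h2 _ _ _ (app_enc'.2 rfl) (app_enc'.2 (by rw [k])))⟩
  · obtain ⟨t, rfl, rfl⟩ := app_enc.1 k
    obtain ⟨t', rfl, e⟩ := app_enc.1 k'
    rw [hf (enc_inj.1 e)]

theorem cnt_iff {T : PS X} : LeCard mm (enc T) om ↔ Cnt (· ∈ T) := by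
  classical
  rw [← car_ps, ← car_nat, leCard_iff]
  refine ⟨fun ⟨f, hf⟩ => ⟨lm fun B => if k : B ∈ T then f ⟨B, k⟩ else 0, fun B C k k' e => ?_⟩,
    fun ⟨f, hf⟩ => ⟨lm fun x => f x.1, fun a b e => Subtype.ext (hf _ _ a.2 b.2 e)⟩⟩
  simp only [lm_apply, dif_pos k, dif_pos k'] at e
  exact congrArg Subtype.val (hf e)

theorem finite_iff {T : PS X} : (∃ n, mm n om ∧ LeCard mm (enc T) n) ↔ {x | x ∈ T}.Finite := by
  refine ⟨fun ⟨n, h1, h2⟩ => ?_, fun h => ?_⟩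
  · obtain ⟨n, rfl⟩ := Std.std n h1
    rw [← car_ps, ← car_fin] at h2
    obtain ⟨f, hf⟩ := leCard_iff.1 h2
    exact Finite.of_injective (α := T) f hf
  · have : Finite T := h
    obtain ⟨n, ⟨e⟩⟩ := Finite.exists_equiv_fin T
    refine ⟨_, num_mem_om n, ?_⟩
    rw [← car_ps, ← car_fin]
    exact leCard_iff.2 ⟨⟨e, DD.finite _⟩, e.injective⟩

theorem range_inj (f : Fn X Y) : ∃ g : Fn (range f) X, Function.Injective g := by
  obtain ⟨g, hg⟩ := chs (R := fun (t : range f) (x : X) => f x = t.1) fun t => t.2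
  exact ⟨g, fun a b e => Subtype.ext (by rw [← hg a, e, hg b])⟩

/-- the code of a relation -/
def rc (l : X → X → Prop) [DP2 l] : MM := enc (sb fun p : X × X => l p.1 p.2)

theorem app_rc {l : X → X → Prop} [DP2 l] {x y : X} : App mm (rc l) (enc x) (enc y) ↔ l x y :=
  app_iff.trans (enc_mem_enc (x := (x, y)))

theorem all_car {p : MM → Prop} : (∀ x, mm x (car X) → p x) ↔ ∀ x : X, p (enc x) :=
  ⟨fun h x => h _ (enc_mem x), fun h _ hx => let ⟨t, e⟩ := mem_car.1 hx; e ▸ h t⟩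

theorem ex_car {p : MM → Prop} : (∃ x, mm x (car X) ∧ p x) ↔ ∃ x : X, p (enc x) :=
  ⟨fun ⟨_, hx, h⟩ => let ⟨t, e⟩ := mem_car.1 hx; ⟨t, e ▸ h⟩, fun ⟨x, h⟩ => ⟨_, enc_mem x, h⟩⟩

end code

theorem ma_typed {c k : MM} (h : MA mm om c) (hk : ¬ LeCard mm c k) {Q : Type} [MT Q] (q0 : Q)
    (l : Q → Q → Prop) [DP2 l] (hr : ∀ x, l x x) (ht : ∀ x y z, l x y → l y z → l x z)
    (hc : ∀ A : PS Q, (∀ x ∈ A, ∀ y ∈ A, ∀ z, l z x → l z y → x = y) → Cnt (· ∈ A))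
    (D : Fn (El k) (PS Q)) (hD : ∀ i x, ∃ y ∈ D i, l y x) :
    ∃ G : PS Q, (∀ x ∈ G, ∀ y ∈ G, ∃ z, l z x ∧ l z y) ∧ ∀ i, ∃ x ∈ G, x ∈ D i := by
  obtain ⟨G, ⟨g1, -, -, g2⟩, g3⟩ := h (car Q) (rc l) (enc (range D))
    ⟨⟨_, enc_mem q0⟩, all_car.2 fun x => app_rc.2 (hr x), fun x y z hx hy hz => by
      obtain ⟨x, rfl⟩ := mem_car.1 hx
      obtain ⟨y, rfl⟩ := mem_car.1 hy
      obtain ⟨z, rfl⟩ := mem_car.1 hz
      simp only [app_rc]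
      exact ht x y z⟩
    (fun A hA h => by
      obtain ⟨A, rfl⟩ := sub_iff hA
      exact cnt_iff.2 (hc A fun x hx y hy z k k' => not_not.1 fun e =>
        h _ _ (enc_mem_enc.2 hx) (enc_mem_enc.2 hy) (fun e' => e (enc_inj.1 e'))
          ⟨_, enc_mem z, app_rc.2 k, app_rc.2 k'⟩))
    (fun A hA => by
      obtain ⟨_, ⟨i, rfl⟩, rfl⟩ := mem_enc.1 hA
      exact ⟨enc_sub _, all_car.2 fun x =>
        let ⟨y, h1, h2⟩ := hD i x; ⟨_, enc_mem_enc.2 h1, app_rc.2 h2⟩⟩)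
    fun h => hk (by
      rw [← car_El c, ← car_ps] at h
      rw [← car_El c, ← car_El k]
      obtain ⟨f, hf⟩ := leCard_iff.1 h
      obtain ⟨g, hg⟩ := range_inj D
      exact leCard_iff.2 ⟨lm fun x => g (f x), hg.comp hf⟩)
  obtain ⟨G, rfl⟩ := sub_iff g1
  refine ⟨G, fun x hx y hy => ?_, fun i => ?_⟩
  · obtain ⟨z, h1, h2, h3⟩ := g2 _ _ (enc_mem_enc.2 hx) (enc_mem_enc.2 hy)
    obtain ⟨z, -, rfl⟩ := mem_enc.1 h1
    exact ⟨z, app_rc.1 h2, app_rc.1 h3⟩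
  · obtain ⟨z, h1, h2⟩ := g3 _ ((enc_mem_enc (x := D i)).2 ⟨i, rfl⟩)
    obtain ⟨z, h3, rfl⟩ := mem_enc.1 h1
    exact ⟨z, h3, enc_mem_enc.1 h2⟩

theorem isOd {k : MM} (h : IsOmega1 mm k om) : IsOd k := ⟨h.1, h.2.1⟩

theorem not_cnt {k : MM} (h : IsOmega1 mm k om) : ¬ Cnt fun _ : El k => True := fun ⟨f, hf⟩ =>
  h.2.2.1 (by
    rw [← car_El k, ← car_nat]
    exact leCard_iff.2 ⟨f, fun a b => hf a b trivial trivial⟩)

theorem cnt_lt {k : MM} [IsOd k] (h : IsOmega1 mm k om) (i : El k) : Cnt (· < i) := by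
  classical
  have := h.2.2.2 _ i.mem
  rw [← car_El i.v, ← car_nat] at this
  obtain ⟨f, hf⟩ := leCard_iff.1 this
  refine ⟨lm fun a => if k : a.v ∈ i.v then f (El.mk a.v k) else 0, fun a b k k' e => ?_⟩
  simp only [lm_apply, dif_pos (El.lt_def.1 k), dif_pos (El.lt_def.1 k')] at e
  have e' := congrArg El.v (hf e)
  exact El.ext e'

theorem num_mem {k : MM} (h : IsOmega1 mm k om) (n : ℕ) : num n ∈ k := by
  have o := MP_5f3b23_lc.Zf.od_om.el (num_mem_om n)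
  by_contra hn
  obtain ⟨f, hf⟩ := chs (R := fun (x : El k) (i : ℕ) => enc i = x.v) fun x => by
    refine (mem_num (n := n).1 ?_).imp fun _ k => k.2
    rcases (o.tri (isOd h).out).resolve_left hn with e | e
    exacts [e ▸ x.mem, o.tr e x.mem]
  exact not_cnt h ⟨f, fun a b _ _ e => El.ext (by rw [← hf a, e, hf b])⟩

theorem pi_of_ma {c k : MM} (h : MA mm om c) (hk : ¬ LeCard mm c k) (h1 : IsOmega1 mm k om) :
    PI (El k) := fun B hB => by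
  obtain ⟨j, hj⟩ := chsH (P := fun x : El k => ∃ i : ℕ, enc i = x.v)
    (R := fun x (i : ℕ) => enc i = x.v) fun _ h => h
  obtain ⟨G, g1, g2⟩ := ma_typed h hk (([], []) : List ℕ × List (El k))
    (fun p q => (∀ m ∈ q.1, m ∈ p.1) ∧ (∀ a ∈ q.2, a ∈ p.2) ∧
      ∀ m ∈ p.1, m ∈ q.1 ∨ ∀ a ∈ q.2, m ∈ B a)
    (fun _ => ⟨fun _ h => h, fun _ h => h, fun _ h => Or.inl h⟩)
    (fun x y z a b => ⟨fun m h => a.1 m (b.1 m h), fun m h => a.2.1 m (b.2.1 m h), fun m h =>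
      (a.2.2 m h).elim (b.2.2 m) fun e => Or.inr fun t ht => e t (b.2.1 t ht)⟩)
    (fun A hA => by
      obtain ⟨f, hf⟩ := cnt_nat.list
      refine ⟨lm fun x => f x.1, fun x y hx hy e => ?_⟩
      have e' := hf _ _ (fun _ _ => trivial) (fun _ _ => trivial) e
      exact hA x hx y hy (x.1, x.2 ++ y.2)
        ⟨fun _ h => h, fun _ h => List.mem_append_left _ h, fun _ h => Or.inl h⟩
        ⟨fun _ h => e' ▸ h, fun _ h => List.mem_append_right _ h, fun _ h => Or.inl (e' ▸ h)⟩)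
    (lm fun i => sb fun p => i ∈ p.2 ∧ ∃ m ∈ p.1, j i ≤ m) fun i x => by
      obtain ⟨m, m1, m2⟩ := frequently_atTop.1 (hB x.2) (j i)
      exact ⟨(m :: x.1, i :: x.2), ⟨List.mem_cons_self, m, List.mem_cons_self, m1⟩,
        fun _ h => List.mem_cons_of_mem _ h, fun _ h => List.mem_cons_of_mem _ h,
        fun t h => (List.mem_cons.1 h).elim (fun e => Or.inr (e ▸ m2)) Or.inl⟩
  refine ⟨sb fun m => ∃ p ∈ G, m ∈ p.1, Set.infinite_of_forall_exists_gt fun n => ?_, fun a => ?_⟩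
  · obtain ⟨p, p1, -, m, p2, p3⟩ := g2 (El.mk _ (num_mem h1 (n + 1)))
    rw [show j _ = n + 1 from enc_inj.1 (hj (El.mk _ (num_mem h1 (n + 1))) ⟨n + 1, rfl⟩)] at p3
    exact ⟨m, ⟨p, p1, p2⟩, p3⟩
  · obtain ⟨p, p1, p2, -⟩ := g2 a
    refine p.1.finite_toSet.subset fun m ⟨⟨q, q1, q2⟩, hm⟩ => ?_
    obtain ⟨z, z1, z2⟩ := g1 p p1 q q1
    exact (z1.2.2 m (z2.1 m q2)).resolve_right fun e => hm (e a p2)

end Pool.Agent.P.MP_fdc1ac_lc.W
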