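import Pool.Agent.P.MP_fdc1ac_lc.Md.T5
import Pool.Agent.P.MP_fdc1ac_lc.Md.Defs
import Pool.Agent.P.MP_fdc1ac_lc.Md.Model

set_option autoImplicit false
set_option linter.unusedSectionVars false
set_option synthInstance.maxSize 4000

/-! The coded space satisfies the first-order statements. -/

noncomputable section

open Pool.Agent.Lib.PosetForcing (App IsFun IsFunOn LeCard IsOmega1 IsSub IsSucc IsOmega IsZFC)
open Pool.Agent.P.MP_5f3b23_lc.Zf (mm om op app_iff isPair_iff op_inj mem_suc)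
open Pool.Agent.P.MP_af1204_lc.Inn Pool.Agent.P.MP_0d6be8_lc.NKW Filter
open Pool.Agent.P.MP_93aff1_lc (MA)

namespace Pool.Agent.P.MP_fdc1ac_lc.W

section link
variable [Md] [Std]

/-- the code of the space -/
def SS : In.Data MM :=
  ⟨om, car E, car AR, rc le, rc leStar, rc leFin, enc (lm fun p : ℕ × E => r p.1 p.2)⟩

theorem qo_rc {X : Type} [MT X] (l : X → X → Prop) [DP2 l] (hr : ∀ x, l x x)
    (ht : ∀ x y z, l x y → l y z → l x z) : In.QO mm (car X) (rc l) :=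
  ⟨all_car.2 fun x => app_rc.2 (hr x), fun x y z hx hy hz => by
    obtain ⟨x, rfl⟩ := mem_car.1 hx
    obtain ⟨y, rfl⟩ := mem_car.1 hy
    obtain ⟨z, rfl⟩ := mem_car.1 hz
    simp only [app_rc]
    exact ht x y z⟩

theorem ap_iff {n A a : MM} :
    In.Ap mm SS n A a ↔ ∃ (k : ℕ) (B : E), num k = n ∧ enc B = A ∧ enc (r k B) = a := by
  simp only [In.Ap, isPair_iff, exists_eq_left]
  exact app_enc.trans ⟨fun ⟨t, e, e'⟩ => ⟨t.1, t.2, (op_inj e).1, (op_inj e).2, e'⟩,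
    fun ⟨k, B, e1, e2, e3⟩ => ⟨(k, B), e1 ▸ e2 ▸ rfl, e3⟩⟩

theorem ap_enc {k : ℕ} {B : E} {a : MM} : In.Ap mm SS (num k) (enc B) a ↔ a = enc (r k B) :=
  ap_iff.trans ⟨fun ⟨_, _, e1, e2, e3⟩ => num_inj e1 ▸ enc_inj.1 e2 ▸ e3.symm,
    fun e => ⟨k, B, rfl, rfl, e.symm⟩⟩

theorem ap_r (k : ℕ) (B : E) : In.Ap mm SS (num k) (enc B) (enc (r k B)) := ap_enc.2 rfl

theorem nb_iff {a : AR} {B : E} {A : MM} :
    In.Nb mm SS (enc a) (enc B) A ↔ ∃ C ∈ nbhd le r a B, enc C = A := by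
  refine ⟨fun ⟨h1, h2, n, h3⟩ => ?_, ?_⟩
  · obtain ⟨k, C, -, rfl, e⟩ := ap_iff.1 h3
    exact ⟨C, ⟨app_rc.1 h2, k, enc_inj.1 e⟩, rfl⟩
  · rintro ⟨C, ⟨h1, k, rfl⟩, rfl⟩
    exact ⟨enc_mem C, app_rc.2 h1, _, ap_r k C⟩

theorem nb_ex {a : AR} {B : E} :
    (∃ C, In.Nb mm SS (enc a) (enc B) C) ↔ (nbhd le r a B).Nonempty :=
  ⟨fun ⟨_, h⟩ => let ⟨C, k, _⟩ := nb_iff.1 h; ⟨C, k⟩, fun ⟨C, h⟩ => ⟨_, nb_iff.2 ⟨C, h, rfl⟩⟩⟩

theorem depth_of {B a n b : MM} (h : In.Depth mm SS B a n b) : ∃ (B' : E) (a' : AR) (k : ℕ),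
    enc B' = B ∧ enc a' = a ∧ enc (r k B') = b ∧ IsLeast {m | leFin a' (r m B')} k := by
  obtain ⟨h1, h2, h3, h4⟩ := h
  obtain ⟨a, rfl⟩ := mem_car.1 h1
  obtain ⟨k, B, rfl, rfl, rfl⟩ := ap_iff.1 h2
  exact ⟨B, a, k, rfl, rfl, rfl, (app_rc (l := leFin)).1 h3, fun m hm => not_lt.1 fun e =>
    h4 _ _ (num_mem_num.2 e) (ap_r m B) (app_rc.2 hm)⟩

theorem num_sub {n m : ℕ} : IsSub mm (num n) (num m) ↔ n ≤ m :=
  ⟨fun h => not_lt.1 fun e => lt_irrefl m (num_mem_num.1 (h _ (num_mem_num.2 e))),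
    fun h _ hx => let ⟨i, k, e⟩ := mem_num.1 hx; mem_num.2 ⟨i, k.trans_le h, e⟩⟩

theorem init_iff {a b : MM} :
    In.Init mm SS a b ↔ ∃ a' b' : AR, enc a' = a ∧ enc b' = b ∧ IsInit r a' b' := by
  refine ⟨fun ⟨B, n, m, h1, h2, h3⟩ => ?_, ?_⟩
  · obtain ⟨n, B, rfl, rfl, rfl⟩ := ap_iff.1 h2
    obtain ⟨m, C, rfl, e, rfl⟩ := ap_iff.1 h3
    exact ⟨_, _, rfl, rfl, B, n, m, num_sub.1 h1, rfl, by rw [enc_inj.1 e]⟩
  · rintro ⟨_, _, rfl, rfl, B, n, m, h, rfl, rfl⟩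
    exact ⟨_, _, _, num_sub.2 h, ap_r n B, ap_r m B⟩

theorem succ_eq {k : ℕ} {y : MM} (h : IsSucc mm y (num k)) : y = num (k + 1) :=
  zext fun z => (h z).trans mem_suc.symm

theorem isTRS : In.IsTRS mm SS where
  ne := ⟨_, enc_mem (Classical.arbitrary E)⟩
  fn := ⟨car (ℕ × E), fun p => mem_car.trans
    ⟨fun ⟨t, e⟩ => ⟨_, _, num_mem_om t.1, enc_mem t.2, isPair_iff.2 e.symm⟩,
      fun ⟨n, A, h1, h2, h3⟩ => by
        obtain ⟨n, rfl⟩ := Std.std n h1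
        obtain ⟨A, rfl⟩ := mem_car.1 h2
        exact ⟨(n, A), (isPair_iff.1 h3).symm⟩⟩, isFun_enc _⟩
  onto := all_car.2 fun a => let ⟨n, A, e⟩ := r_surj a; ⟨_, _, e ▸ ap_r n A⟩
  le := qo_rc _ le_refl' le_trans'
  lf := qo_rc _ leFin_refl leFin_trans
  a11 e A B a b he h1 h2 := by
    obtain ⟨n, A, rfl, rfl, rfl⟩ := ap_iff.1 h1
    obtain ⟨m, B, e, rfl, rfl⟩ := ap_iff.1 h2
    obtain rfl := num_inj e
    obtain rfl : m = 0 := Nat.eq_zero_of_not_pos fun k => he _ (num_mem_num.2 k)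
    rw [r_zero A B]
  a12 A B hA hB h := by
    obtain ⟨A, rfl⟩ := mem_car.1 hA
    obtain ⟨B, rfl⟩ := mem_car.1 hB
    obtain ⟨n, hn⟩ := A1_2 A B fun e => h (by rw [e])
    exact ⟨_, _, _, ap_r n A, ap_r n B, fun e => hn (enc_inj.1 e)⟩
  a13 A B n m a h1 h2 := by
    obtain ⟨n, A, rfl, rfl, rfl⟩ := ap_iff.1 h1
    obtain ⟨m, B, rfl, rfl, e⟩ := ap_iff.1 h2
    obtain ⟨rfl, h⟩ := A1_3 A B n m (enc_inj.1 e).symm
    refine ⟨rfl, fun k b hk hb => ?_⟩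
    obtain ⟨k, g, rfl⟩ := mem_num.1 hk
    exact ap_enc.2 (h k g ▸ ap_enc.1 hb)
  a21 := all_car.2 fun b => ⟨enc (sb fun a => leFin a b), finite_iff.2 (A2_1 b), fun a =>
    ⟨fun h => let ⟨t, k, e⟩ := mem_enc.1 h; e ▸ ⟨enc_mem t, app_rc.2 k⟩,
      fun h => let ⟨t, e⟩ := mem_car.1 h.1; mem_enc.2 ⟨t, (app_rc (l := leFin)).1 (e ▸ h.2), e⟩⟩⟩
  a22 A B hA hB := by
    obtain ⟨A, rfl⟩ := mem_car.1 hA
    obtain ⟨B, rfl⟩ := mem_car.1 hB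
    refine app_rc.trans ((A2_2 A B).trans ⟨fun h n a k => ?_, fun h n => ?_⟩)
    · obtain ⟨n, C, rfl, e, rfl⟩ := ap_iff.1 k
      obtain ⟨m, hm⟩ := h n
      exact ⟨_, _, ap_r m B, app_rc.2 (enc_inj.1 e ▸ hm)⟩
    · obtain ⟨m, b, h1, h2⟩ := h _ _ (ap_r n A)
      obtain ⟨m, C, rfl, e, rfl⟩ := ap_iff.1 h1
      exact ⟨m, enc_inj.1 e ▸ app_rc.1 h2⟩
  a23 a b c g hc k := by
    obtain ⟨a, b, rfl, rfl, h⟩ := init_iff.1 g
    obtain ⟨c, rfl⟩ := mem_car.1 hc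
    by_cases e : a = b
    · obtain ⟨d, h1, h2⟩ := A2_3 a b c h (app_rc.1 k)
      exact ⟨_, init_iff.2 ⟨d, c, rfl, rfl, h1⟩, app_rc.2 h2, fun k => (k (by rw [e])).elim⟩
    · obtain ⟨d, h1, h2, h3⟩ := A2_3_strict a b c h e (app_rc.1 k)
      exact ⟨_, init_iff.2 ⟨d, c, rfl, rfl, h1⟩, app_rc.2 h3, fun _ k => h2 (enc_inj.1 k)⟩
  a31 B a n b A g g' := by
    obtain ⟨B, a, n, rfl, rfl, rfl, h⟩ := depth_of g
    obtain ⟨A, k, rfl⟩ := nb_iff.1 g'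
    exact nb_ex.2 (A3_1 a B n h A k)
  a32 B a n b A g hA k1 k2 := by
    obtain ⟨B, a, n, rfl, rfl, rfl, h⟩ := depth_of g
    obtain ⟨A, rfl⟩ := mem_car.1 hA
    obtain ⟨A', h1, h2, h3⟩ := A3_2 a B n h A (app_rc.1 k1) (nb_ex.1 k2)
    exact ⟨_, nb_iff.2 ⟨A', h1, rfl⟩, nb_ex.2 h2, fun C hC =>
      let ⟨C, k, e⟩ := nb_iff.1 hC; nb_iff.2 ⟨C, h3 k, e⟩⟩
  a4 B a n b k k' O h0 h1 h2 := by
    obtain ⟨B, a, n, rfl, rfl, rfl, h⟩ := depth_of h0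
    obtain ⟨_, h1⟩ := h1
    obtain ⟨k, C, rfl, -, e⟩ := ap_iff.1 h1
    obtain rfl := succ_eq h2
    obtain ⟨A, h3, h4⟩ := A4 a B n h k ⟨C, enc_inj.1 e⟩ (sb fun x => enc x ∈ O)
    refine ⟨_, nb_iff.2 ⟨A, h3, rfl⟩, h4.imp (fun g X c g1 g2 => ?_) fun g X c g1 g2 => ?_⟩ <;>
    · obtain ⟨X, g3, rfl⟩ := nb_iff.1 g1
      obtain rfl := ap_enc.1 g2
      exact g X g3
  closed s hs h := by
    obtain ⟨s, rfl⟩ := isFun_iff (X := ℕ) (Y := AR) (car_nat.symm ▸ hs : IsFun mm s _ _)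
    obtain ⟨A, hA⟩ := limit s fun N => by
      obtain ⟨A, h1, h2⟩ := h _ (num_mem_om (N + 1))
      obtain ⟨A, rfl⟩ := mem_car.1 h1
      exact ⟨A, fun n hn => (enc_inj.1 (ap_enc.1 (h2 _ _ (num_mem_num.2 (Nat.lt_succ_of_le hn))
        ((app_enc' (x := n)).2 rfl)))).symm⟩
    refine ⟨_, enc_mem A, fun n a k => ?_⟩
    obtain ⟨n, rfl, rfl⟩ := app_enc.1 k
    exact hA n ▸ ap_r n A

theorem sep_iff (l : E → E → Prop) [DP2 l] {x y : E} :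
    In.Sep mm SS (rc l) (enc x) (enc y) ↔ sepLe l x y :=
  all_car.trans (forall_congr' fun _ => imp_congr app_rc
    (ex_car.trans (exists_congr fun _ => and_congr app_rc app_rc)))

theorem isSigma : In.IsSigma mm SS where
  qo := qo_rc _ leStar_refl leStar_trans
  coarse A B hA hB h := by
    obtain ⟨A, rfl⟩ := mem_car.1 hA
    obtain ⟨B, rfl⟩ := mem_car.1 hB
    exact app_rc.2 (leStar_eq ▸ sepLe_of_le le_refl' le_trans' (app_rc.1 h))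
  closed X hX h := by
    obtain ⟨X, rfl⟩ := isFun_iff (X := ℕ) (Y := E) (car_nat.symm ▸ hX : IsFun mm X _ _)
    obtain ⟨Y, hY⟩ := sigmaClosed X fun n => app_rc.1 (h (num n) (num (n + 1)) _ _
      (fun _ => mem_suc) ((app_enc' (x := n)).2 rfl) ((app_enc' (x := n + 1)).2 rfl))
    refine ⟨_, enc_mem Y, fun n A k => ?_⟩
    obtain ⟨n, rfl, rfl⟩ := app_enc.1 k
    exact app_rc.2 (hY n)
  sep A B hA hB := by
    obtain ⟨A, rfl⟩ := mem_car.1 hA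
    obtain ⟨B, rfl⟩ := mem_car.1 hB
    refine (sep_iff le).trans (Iff.trans ?_ (sep_iff leStar).symm)
    rw [leStar_eq, sepLe_sepLe le_refl' le_trans']

theorem ls_iff (A B : MM) (hA : mm A SS.R) (hB : mm B SS.R) :
    App mm SS.ls A B ↔ In.Sep mm SS SS.le A B := by
  obtain ⟨A, rfl⟩ := mem_car.1 hA
  obtain ⟨B, rfl⟩ := mem_car.1 hB
  exact app_rc.trans (Iff.trans (by rw [leStar_eq]) (sep_iff le).symm)

theorem cnt_AR : LeCard mm SS.AR om := by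
  have h : Cnt fun _ : D => True :=
    cnt_of_surj (((cnt_nat.prod cnt_bool).prod cnt_bool.list).prod cnt_bool)
      (fun p => if p.2 = true then .inl p.1.1 else .inr p.1.2) (by
        rintro (l | s) -
        exacts [⟨((l, []), true), by simp, rfl⟩, ⟨(((0, true), s), false), by simp, rfl⟩])
  obtain ⟨f, hf⟩ := cnt_nat.list.prod h.list
  rw [← car_nat]
  exact leCard_iff.2 ⟨lm fun a : AR => f a.1, fun a b e =>
    Subtype.ext (hf _ _ (by simp) (by simp) e)⟩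

theorem pseudo_iff {F : PS E} : In.Pseudo mm SS (enc F) ↔ ∃ Y, ∀ X ∈ F, leStar Y X :=
  ex_car.trans (exists_congr fun _ => ⟨fun h _ k => app_rc.1 (h _ (enc_mem_enc.2 k)),
    fun h _ k => let ⟨X, k, e⟩ := mem_enc.1 k; e ▸ app_rc.2 (h X k)⟩)

theorem sfip_iff {F : PS E} : In.SFIP mm SS (enc F) ↔
    ∀ G : Set E, G.Finite → (∀ X ∈ G, X ∈ F) → HasPseudo leStar G := by
  refine ⟨fun h G h1 h2 => ?_, fun h => ⟨enc_sub F, fun G h1 h2 => ?_⟩⟩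
  · obtain ⟨l, rfl⟩ : ∃ l : List E, G = {x | x ∈ l} := ⟨h1.toFinset.toList, by ext; simp⟩
    exact (pseudo_iff (F := sb fun x => x ∈ l)).1 (h.2 _ (fun y hy =>
      let ⟨X, k, e⟩ := mem_enc.1 hy; mem_enc.2 ⟨X, h2 X k, e⟩) (finite_iff.2 h1))
  · obtain ⟨G, rfl⟩ := sub_iff fun y hy => enc_sub F y (h1 y hy)
    exact pseudo_iff.2 (h _ (finite_iff.1 h2) fun X k => enc_mem_enc.1 (h1 _ (enc_mem_enc.2 k)))

theorem p_low (F : MM) (h : In.SFIP mm SS F) (hc : LeCard mm F om) : In.Pseudo mm SS F := by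
  obtain ⟨F, rfl⟩ := sub_iff (X := E) h.1
  exact pseudo_iff.2 (p_lower F (cnt_iff.1 hc) (sfip_iff.1 h))

theorem p_up {k : MM} (h : IsOmega1 mm k om) :
    ∃ F, In.SFIP mm SS F ∧ ¬ In.Pseudo mm SS F ∧ LeCard mm F k := by
  have := isOd h
  obtain ⟨X, h1, h2⟩ := p_upper (cnt_lt h) (not_cnt h)
  refine ⟨enc (range X), sfip_iff.2 h1, fun e => ?_, ?_⟩
  · obtain ⟨Y, hY⟩ := pseudo_iff.1 e
    exact h2 ⟨Y, fun i => hY _ ⟨i, rfl⟩⟩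
  · have := leCard_iff.2 (range_inj X)
    rwa [car_ps, car_El] at this

theorem t_ex : ∃ T, In.Tower mm SS T := by
  obtain ⟨T, h1, h2, h3⟩ := exists_tower
  refine ⟨enc T, enc_sub T, fun X Y gX gY => ?_, fun X Y gX gY => ?_, mt pseudo_iff.1 h3⟩ <;>
    obtain ⟨X, hX, rfl⟩ := mem_enc.1 gX <;> obtain ⟨Y, hY, rfl⟩ := mem_enc.1 gY
  · exact (h1 X hX Y hY).imp app_rc.2 app_rc.2
  · exact fun a b => by rw [h2 X hX Y hY (app_rc.1 a) (app_rc.1 b)]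

theorem t_low {k : MM} (h : PI (El k)) (T : MM) (hT : In.Tower mm SS T) : ¬ LeCard mm T k := by
  obtain ⟨T, rfl⟩ := sub_iff (X := E) hT.1
  rw [← car_ps, ← car_El k, leCard_iff]
  rintro ⟨f, hf⟩
  refine hT.2.2.2 (pseudo_iff.2 ?_)
  rcases eq_empty_or_nonempty T with rfl | ⟨X0, h0⟩
  · exact ⟨Classical.arbitrary E, fun _ k => k.elim⟩
  have : Nonempty T := ⟨⟨X0, h0⟩⟩
  obtain ⟨g, hg⟩ := exists_inv hf
  obtain ⟨Y, hY⟩ := t_lower h (lm fun i => (g i).1) fun a b =>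
    (hT.2.1 _ _ (enc_mem_enc.2 (g a).2) (enc_mem_enc.2 (g b).2)).imp app_rc.1 app_rc.1
  exact ⟨Y, fun X hX => hY X ⟨f ⟨X, hX⟩, congrArg Subtype.val (hg ⟨X, hX⟩)⟩⟩

end link

open Pool.Agent.P.MP_5f3b23_lc.Zf in
theorem final : ∃ (M : Type) (mem : M → M → Prop), IsZFC mem ∧ ∃ (S : In.Data M) (w1 : M),
    IsOmega mem S.w ∧ IsOmega1 mem w1 S.w ∧ In.IsTRS mem S ∧ In.IsSigma mem S ∧
    LeCard mem S.AR S.w ∧
    (∀ A B, mem A S.R → mem B S.R → (App mem S.ls A B ↔ In.Sep mem S S.le A B)) ∧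
    (∀ F, In.SFIP mem S F → LeCard mem F S.w → In.Pseudo mem S F) ∧
    (∃ F, In.SFIP mem S F ∧ ¬ In.Pseudo mem S F ∧ LeCard mem F w1) ∧
    (∃ T, In.Tower mem S T) ∧ ∀ T, In.Tower mem S T → ¬ LeCard mem T w1 := by
  obtain ⟨N, m, w, c, k, h1, h2, h3, h4, h5, h6⟩ := exists_model
  let z : Zm N := { mem := fun a x => m x a, zfc := h1 }
  let md : Md := ⟨N⟩
  obtain rfl : w = om := isOmega_iff.1 h2
  have st : Std := ⟨h6 (fun x => ∃ n, num n = x) (fun e he => ⟨0, (eq_emp he).symm⟩)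
    fun x y hs ⟨n, hn⟩ => ⟨n + 1, zfc.ext _ _ fun z => by
      rw [num_succ, hn]; exact mem_suc.trans (hs z).symm⟩⟩
  exact ⟨N, m, h1, SS, k, h2, h3, isTRS, isSigma, cnt_AR, ls_iff, p_low, p_up h3, t_ex,
    t_low (pi_of_ma h4 h5 h3)⟩

end Pool.Agent.P.MP_fdc1ac_lc.W
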